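import Pool.Agent.Lib.RC68.Final

open Pool.Agent.Lib.MP_ea7ca7_co

/-- Q1 with `K = 0`: a rep-cube of order `k` exists for every `k > 0`. -/
theorem Pool.Agent.Results.MP_ea7ca7_co.EveryOrder.result :
    ∀ k : ℕ, 0 < k → ∃ S : Finset (ℤ × ℤ), IsRepCube S k :=
  Pool.Agent.Lib.RC68.every_order
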